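import Mathlib

/-!
# Sets without `k`-fold products that are `d`-th powers: the case `k = 2`, `d = 4`

`(n - F_{2,4}(n)) / n ^ (1/2)` tends to infinity, so the two-sided bound of order `n ^ (k/d)` fails
for `(k, d) = (2, 4)`.

Main idea: for a prime `t`, a squarefree `r < t` and `s` prime to `t` the numbers `r s ^ 2 t ^ 3` and
`r ^ 3 s ^ 2 t` have product `(r s t) ^ 4`, and different triples `(r, s, t)` give disjoint pairs.
The number of such triples with `r s ^ 2 t ^ 3 ≤ n` is at least a constant times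
`n ^ (1/2)` times the sum of `1 / t` over the primes `t ≤ n ^ (1/4)`.
-/

set_option autoImplicit false

open Filter Finset

namespace Pool.Agent.Results.MP_5e019f_nt.FalseForTwoFour

open Classical in
/-- `F k d n` is the largest size of a set `A ⊆ {1, ..., n}` such that no product of `k` pairwise
distinct elements of `A` is the `d`-th power of a positive integer. -/
noncomputable def F (k d n : ℕ) : ℕ :=
  ((Icc 1 n).powerset.filter (fun A : Finset ℕ =>
    ∀ B : Finset ℕ, B ⊆ A → B.card = k → ¬ ∃ x : ℕ, 0 < x ∧ ∏ b ∈ B, b = x ^ d)).sup Finset.card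

open Classical in
/-- `f k d n` is the largest size of a set `A ⊆ {1, ..., n}` such that no product of `k` elements of
`A`, repetitions allowed, is the `d`-th power of a positive integer. -/
noncomputable def f (k d n : ℕ) : ℕ :=
  ((Icc 1 n).powerset.filter (fun A : Finset ℕ =>
    ∀ a : Fin k → ℕ, (∀ i, a i ∈ A) → ¬ ∃ x : ℕ, 0 < x ∧ ∏ i, a i = x ^ d)).sup Finset.card

/-- squarefree parts are unique -/
lemma sqfree_unique {a b x y : ℕ} (ha : Squarefree a) (hb : Squarefree b) (hx : x ≠ 0)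
    (hy : y ≠ 0) (h : a * x ^ 2 = b * y ^ 2) : a = b := by
  have ha0 : a ≠ 0 := ha.ne_zero
  have hb0 : b ≠ 0 := hb.ne_zero
  apply Nat.eq_of_factorization_eq ha0 hb0
  intro p
  have h1 : (a * x ^ 2).factorization p = (b * y ^ 2).factorization p := by rw [h]
  rw [Nat.factorization_mul ha0 (pow_ne_zero 2 hx), Nat.factorization_mul hb0 (pow_ne_zero 2 hy),
    Nat.factorization_pow, Nat.factorization_pow] at h1
  simp only [Finsupp.add_apply, Finsupp.smul_apply, smul_eq_mul] at h1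
  have h2 := (Nat.squarefree_iff_factorization_le_one ha0).1 ha p
  have h3 := (Nat.squarefree_iff_factorization_le_one hb0).1 hb p
  omega

/-- `1, ..., N` written as a squarefree number times a square -/
lemma sum_sqfree_ge (N : ℕ) :
    Real.sqrt N ≤ ∑ r ∈ (Icc 1 N).filter Squarefree, 1 / Real.sqrt r := by
  rcases Nat.eq_zero_or_pos N with h0 | hN
  · subst h0; simp
  have hcover : Icc 1 N ⊆ ((Icc 1 N).filter Squarefree).biUnion
      (fun r => (Icc 1 (Nat.sqrt (N / r))).image (fun w => w ^ 2 * r)) := by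
    intro m hm
    rw [mem_Icc] at hm
    obtain ⟨r, w, hr0, hw0, hrw, hr⟩ := Nat.sq_mul_squarefree_of_pos (by omega : 0 < m)
    rw [mem_biUnion]
    have hrN : r ≤ N := by
      have : r ≤ w ^ 2 * r := Nat.le_mul_of_pos_left r (by positivity)
      omega
    refine ⟨r, ?_, ?_⟩
    · rw [mem_filter, mem_Icc]
      exact ⟨⟨hr0, hrN⟩, hr⟩
    · rw [mem_image]
      refine ⟨w, ?_, hrw⟩
      rw [mem_Icc]
      refine ⟨hw0, ?_⟩
      rw [Nat.le_sqrt', Nat.le_div_iff_mul_le hr0]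
      omega
  have hcard : (N : ℝ) ≤ ∑ r ∈ (Icc 1 N).filter Squarefree, Real.sqrt N * (1 / Real.sqrt r) := by
    have h1 : N ≤ ∑ r ∈ (Icc 1 N).filter Squarefree, Nat.sqrt (N / r) := by
      calc N = (Icc 1 N).card := by simp
        _ ≤ _ := card_le_card hcover
        _ ≤ ∑ r ∈ (Icc 1 N).filter Squarefree,
              ((Icc 1 (Nat.sqrt (N / r))).image (fun w => w ^ 2 * r)).card := card_biUnion_le
        _ ≤ _ := by
          apply sum_le_sum
          intro r _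
          refine card_image_le.trans ?_
          simp
    calc (N : ℝ) ≤ ((∑ r ∈ (Icc 1 N).filter Squarefree, Nat.sqrt (N / r) : ℕ) : ℝ) := by
          exact_mod_cast h1
      _ = ∑ r ∈ (Icc 1 N).filter Squarefree, ((Nat.sqrt (N / r) : ℕ) : ℝ) := by push_cast; rfl
      _ ≤ _ := by
        apply sum_le_sum
        intro r hr
        rw [mem_filter, mem_Icc] at hr
        have hr0 : (0 : ℝ) < r := by exact_mod_cast hr.1.1
        have h2 : ((Nat.sqrt (N / r) : ℕ) : ℝ) ≤ Real.sqrt (N / r) := by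
          apply Real.le_sqrt_of_sq_le
          calc (((Nat.sqrt (N / r) : ℕ) : ℝ)) ^ 2 = ((Nat.sqrt (N / r) ^ 2 : ℕ) : ℝ) := by
                push_cast; ring
            _ ≤ ((N / r : ℕ) : ℝ) := by exact_mod_cast Nat.sqrt_le' _
            _ ≤ (N : ℝ) / r := Nat.cast_div_le
        refine h2.trans ?_
        rw [Real.sqrt_div (Nat.cast_nonneg N)]
        rw [mul_one_div]
  rw [← mul_sum] at hcard
  have hN' : (0 : ℝ) < N := by exact_mod_cast hN
  have hs : 0 < Real.sqrt N := Real.sqrt_pos.2 hN'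
  have h3 : Real.sqrt N * Real.sqrt N ≤
      Real.sqrt N * ∑ r ∈ (Icc 1 N).filter Squarefree, 1 / Real.sqrt r := by
    rw [Real.mul_self_sqrt hN'.le]
    exact hcard
  exact le_of_mul_le_mul_left h3 hs

/-- The admissible triples `(t, r, s)`. -/
def triples (n T : ℕ) : Finset (Σ _ : ℕ, Σ _ : ℕ, ℕ) :=
  ((Icc 1 T).filter Nat.Prime).sigma fun t => ((Icc 1 (t - 1)).filter Squarefree).sigma fun r =>
    (Icc 1 (Nat.sqrt (n / (r * t ^ 3)))).filter (fun s => ¬ t ∣ s)

lemma mem_triples {n T : ℕ} {x : Σ _ : ℕ, Σ _ : ℕ, ℕ} (hx : x ∈ triples n T) :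
    x.1.Prime ∧ 0 < x.2.1 ∧ x.2.1 < x.1 ∧ Squarefree x.2.1 ∧ 0 < x.2.2 ∧ ¬ x.1 ∣ x.2.2 ∧
      x.2.1 * x.2.2 ^ 2 * x.1 ^ 3 ≤ n := by
  unfold triples at hx
  simp only [mem_sigma, mem_filter, mem_Icc] at hx
  obtain ⟨⟨⟨h1, h2⟩, h3⟩, ⟨⟨h4, h5⟩, h6⟩, ⟨⟨h7, h8⟩, h9⟩⟩ := hx
  have h10 := h3.pos
  refine ⟨h3, h4, by omega, h6, h7, h9, ?_⟩
  rw [Nat.le_sqrt', Nat.le_div_iff_mul_le (by positivity)] at h8
  calc x.2.1 * x.2.2 ^ 2 * x.1 ^ 3 = x.2.2 ^ 2 * (x.2.1 * x.1 ^ 3) := by ring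
    _ ≤ n := h8

/-- number of `s ≤ Y` not divisible by `t` -/
lemma card_not_dvd (t Y : ℕ) (ht : 2 ≤ t) :
    (Y : ℝ) / 2 ≤ (((Icc 1 Y).filter (fun s => ¬ t ∣ s)).card : ℝ) := by
  have h1 : ((Icc 1 Y).filter (fun s => t ∣ s)).card = Y / t := by
    have := Nat.Ioc_filter_dvd_card_eq_div Y t
    rw [← this]
    congr 1
  have h2 := card_filter_add_card_filter_not (s := Icc 1 Y) (fun s => t ∣ s)
  rw [h1, Nat.card_Icc] at h2
  have h3 : Y / t ≤ Y / 2 := Nat.div_le_div_left ht (by norm_num)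
  have h4 : Y / 2 * 2 ≤ Y := Nat.div_mul_le_self Y 2
  have h5 : Y ≤ 2 * ((Icc 1 Y).filter (fun s => ¬ t ∣ s)).card := by omega
  have h6 : (Y : ℝ) ≤ 2 * (((Icc 1 Y).filter (fun s => ¬ t ∣ s)).card : ℝ) := by exact_mod_cast h5
  linarith

lemma half_floor {N D : ℕ} (hD : 0 < D) (h : D ≤ N) :
    Real.sqrt ((N : ℝ) / D) / 2 ≤ ((Nat.sqrt (N / D) : ℕ) : ℝ) := by
  have hD' : (0 : ℝ) < D := by exact_mod_cast hD
  have h1 : 1 ≤ N / D := (Nat.one_le_div_iff hD).2 h
  have h2 : 1 ≤ Nat.sqrt (N / D) := by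
    rw [Nat.le_sqrt']; simpa using h1
  have h3 : (N : ℝ) / D ≤ (((Nat.sqrt (N / D) : ℕ) : ℝ) + 1) ^ 2 := by
    have h4 : N / D < (Nat.sqrt (N / D) + 1) ^ 2 := Nat.lt_succ_sqrt' _
    have h5 : N / D + 1 ≤ (Nat.sqrt (N / D) + 1) ^ 2 := h4
    have h6 : (N : ℝ) / D ≤ ((N / D : ℕ) : ℝ) + 1 := by
      rw [div_le_iff₀ hD']
      have h7 : N < (N / D + 1) * D := by
        have := Nat.lt_mul_div_succ N hD
        rw [mul_comm]; exact this
      have h8 : (N : ℝ) ≤ (((N / D + 1) * D : ℕ) : ℝ) := by exact_mod_cast h7.le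
      push_cast at h8
      exact_mod_cast h8
    refine h6.trans ?_
    exact_mod_cast h5
  have h4 : Real.sqrt ((N : ℝ) / D) ≤ ((Nat.sqrt (N / D) : ℕ) : ℝ) + 1 := by
    rw [show ((Nat.sqrt (N / D) : ℕ) : ℝ) + 1 =
      Real.sqrt ((((Nat.sqrt (N / D) : ℕ) : ℝ) + 1) ^ 2) from
        (Real.sqrt_sq (by positivity)).symm]
    exact Real.sqrt_le_sqrt h3
  have h5 : (1 : ℝ) ≤ ((Nat.sqrt (N / D) : ℕ) : ℝ) := by exact_mod_cast h2
  linarith

lemma card_triples {n T : ℕ} (hT : T ^ 4 ≤ n) :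
    Real.sqrt n * (∑ t ∈ (Icc 1 T).filter Nat.Prime, 1 / (t : ℝ)) / 8 ≤
      ((triples n T).card : ℝ) := by
  unfold triples
  rw [card_sigma, mul_sum, sum_div]
  push_cast
  apply sum_le_sum
  intro t ht
  rw [mem_filter, mem_Icc] at ht
  obtain ⟨⟨ht1, htT⟩, htp⟩ := ht
  rw [card_sigma]
  push_cast
  have ht0 : (0 : ℝ) < t := by exact_mod_cast htp.pos
  have ht2 : (2 : ℝ) ≤ t := by exact_mod_cast htp.two_le
  have hterm : ∀ r ∈ (Icc 1 (t - 1)).filter Squarefree,
      (Real.sqrt n / (4 * (t * Real.sqrt t))) * (1 / Real.sqrt r) ≤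
      (((Icc 1 (Nat.sqrt (n / (r * t ^ 3)))).filter (fun s => ¬ t ∣ s)).card : ℝ) := by
    intro r hr
    rw [mem_filter, mem_Icc] at hr
    obtain ⟨⟨hr1, hrt⟩, -⟩ := hr
    have hr0 : (0 : ℝ) < r := by exact_mod_cast hr1
    have hle : r * t ^ 3 ≤ n := by
      calc r * t ^ 3 ≤ t * t ^ 3 := Nat.mul_le_mul_right _ (by omega)
        _ = t ^ 4 := by ring
        _ ≤ T ^ 4 := Nat.pow_le_pow_left htT 4
        _ ≤ n := hT
    have hpos : 0 < r * t ^ 3 := by have := htp.pos; positivity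
    have h1 := card_not_dvd t (Nat.sqrt (n / (r * t ^ 3))) htp.two_le
    have h2 := half_floor hpos hle
    have h3 : Real.sqrt ((n : ℝ) / ((r * t ^ 3 : ℕ) : ℝ)) =
        Real.sqrt n / (t * Real.sqrt t) * (1 / Real.sqrt r) := by
      rw [Real.sqrt_div (Nat.cast_nonneg n)]
      push_cast
      rw [show (r : ℝ) * (t : ℝ) ^ 3 = (t : ℝ) ^ 2 * (t * r) by ring,
        Real.sqrt_mul (by positivity), Real.sqrt_sq ht0.le, Real.sqrt_mul ht0.le]
      have hst : Real.sqrt t ≠ 0 := (Real.sqrt_pos.2 ht0).ne'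
      have hsr : Real.sqrt r ≠ 0 := (Real.sqrt_pos.2 hr0).ne'
      field_simp
    rw [h3] at h2
    have h4 : (Real.sqrt n / (4 * (t * Real.sqrt t))) * (1 / Real.sqrt r) =
        (Real.sqrt n / (t * Real.sqrt t) * (1 / Real.sqrt r)) / 2 / 2 := by
      have hst : Real.sqrt t ≠ 0 := (Real.sqrt_pos.2 ht0).ne'
      have hsr : Real.sqrt r ≠ 0 := (Real.sqrt_pos.2 hr0).ne'
      field_simp
      norm_num
    rw [h4]
    linarith
  refine le_trans ?_ (sum_le_sum hterm)
  rw [← mul_sum]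
  have h5 := sum_sqfree_ge (t - 1)
  have h6 : Real.sqrt t / 2 ≤ Real.sqrt ((t - 1 : ℕ) : ℝ) := by
    rw [Nat.cast_sub htp.one_le, Nat.cast_one]
    rw [show Real.sqrt t / 2 = Real.sqrt (t / 4) by
      rw [Real.sqrt_div ht0.le, show (4 : ℝ) = 2 ^ 2 by norm_num, Real.sqrt_sq (by norm_num)]]
    apply Real.sqrt_le_sqrt
    linarith
  have h7 : Real.sqrt n / (4 * (t * Real.sqrt t)) * (Real.sqrt t / 2) =
      Real.sqrt n * (1 / (t : ℝ)) / 8 := by
    have hst : Real.sqrt t ≠ 0 := (Real.sqrt_pos.2 ht0).ne'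
    field_simp
    ring
  rw [← h7]
  apply mul_le_mul_of_nonneg_left _ (by positivity)
  exact h6.trans h5

/-- the two numbers of a triple -/
def al (x : Σ _ : ℕ, Σ _ : ℕ, ℕ) : ℕ := x.2.1 * x.2.2 ^ 2 * x.1 ^ 3
def be (x : Σ _ : ℕ, Σ _ : ℕ, ℕ) : ℕ := x.2.1 ^ 3 * x.2.2 ^ 2 * x.1

lemma sq_part {t r : ℕ} (ht : t.Prime) (hr0 : 0 < r) (hrt : r < t) (hr : Squarefree r) :
    Squarefree (r * t) := by
  rw [Nat.squarefree_mul_iff]
  refine ⟨?_, hr, ht.prime.squarefree⟩
  rw [Nat.coprime_comm, ht.coprime_iff_not_dvd]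
  intro h
  exact absurd (Nat.le_of_dvd hr0 h) (by omega)

lemma same {t r t' r' : ℕ} (ht : t.Prime) (hr0 : 0 < r) (hrt : r < t) (ht' : t'.Prime)
    (hr0' : 0 < r') (hrt' : r' < t') (h : r * t = r' * t') : t = t' ∧ r = r' := by
  have key : ∀ {t r t' r' : ℕ}, t.Prime → 0 < r → r < t → t'.Prime → 0 < r' → r' < t' →
      r * t = r' * t' → t ≤ t' := by
    intro t r t' r' ht hr0 hrt ht' hr0' hrt' h
    have h1 : t ∣ r' * t' := ⟨r, by rw [← h]; ring⟩
    rcases (Nat.Prime.dvd_mul ht).1 h1 with h2 | h2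
    · have := Nat.le_of_dvd hr0' h2; omega
    · exact Nat.le_of_dvd ht'.pos h2
  have h1 := key ht hr0 hrt ht' hr0' hrt' h
  have h2 := key ht' hr0' hrt' ht hr0 hrt h.symm
  have h3 : t = t' := le_antisymm h1 h2
  subst h3
  exact ⟨rfl, Nat.eq_of_mul_eq_mul_right ht.pos h⟩

/-- different triples give disjoint pairs -/
lemma disj {n T : ℕ} {x y : Σ _ : ℕ, Σ _ : ℕ, ℕ} (hx : x ∈ triples n T) (hy : y ∈ triples n T)
    (h : al x = al y ∨ al x = be y ∨ be x = al y ∨ be x = be y) : x = y := by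
  obtain ⟨t, r, s⟩ := x
  obtain ⟨t', r', s'⟩ := y
  obtain ⟨ht, hr0, hrt, hr, hs, hts, -⟩ := mem_triples hx
  obtain ⟨ht', hr0', hrt', hr', hs', hts', -⟩ := mem_triples hy
  simp only [al, be] at *
  have e1 : r * s ^ 2 * t ^ 3 = (r * t) * (s * t) ^ 2 := by ring
  have e2 : r ^ 3 * s ^ 2 * t = (r * t) * (r * s) ^ 2 := by ring
  have e1' : r' * s' ^ 2 * t' ^ 3 = (r' * t') * (s' * t') ^ 2 := by ring
  have e2' : r' ^ 3 * s' ^ 2 * t' = (r' * t') * (r' * s') ^ 2 := by ring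
  rw [e1, e2, e1', e2'] at h
  have q := sq_part ht hr0 hrt hr
  have q' := sq_part ht' hr0' hrt' hr'
  have hst : s * t ≠ 0 := (Nat.mul_pos hs ht.pos).ne'
  have hst' : s' * t' ≠ 0 := (Nat.mul_pos hs' ht'.pos).ne'
  have hrs : r * s ≠ 0 := (Nat.mul_pos hr0 hs).ne'
  have hrs' : r' * s' ≠ 0 := (Nat.mul_pos hr0' hs').ne'
  have hrt0 : 0 < r * t := Nat.mul_pos hr0 ht.pos
  have hsame : t = t' ∧ r = r' := by
    rcases h with h | h | h | h
    · exact same ht hr0 hrt ht' hr0' hrt' (sqfree_unique q q' hst hst' h)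
    · exact same ht hr0 hrt ht' hr0' hrt' (sqfree_unique q q' hst hrs' h)
    · exact same ht hr0 hrt ht' hr0' hrt' (sqfree_unique q q' hrs hst' h)
    · exact same ht hr0 hrt ht' hr0' hrt' (sqfree_unique q q' hrs hrs' h)
  obtain ⟨rfl, rfl⟩ := hsame
  have cancel : ∀ {u v : ℕ}, r * t * u ^ 2 = r * t * v ^ 2 → u = v := by
    intro u v huv
    exact (Nat.pow_left_injective (by norm_num : (2 : ℕ) ≠ 0))
      (Nat.eq_of_mul_eq_mul_left hrt0 huv)
  have no : ∀ {u : ℕ}, t ∣ r * u → ¬ t ∣ u → False := by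
    intro u hu hnu
    rcases (Nat.Prime.dvd_mul ht).1 hu with h2 | h2
    · have := Nat.le_of_dvd hr0 h2; omega
    · exact hnu h2
  have hfin : s = s' := by
    rcases h with h | h | h | h
    · exact Nat.eq_of_mul_eq_mul_right ht.pos (cancel h)
    · exact absurd (no (u := s') ⟨s, by rw [← cancel h]; ring⟩ hts') (by simp)
    · exact absurd (no (u := s) ⟨s', by rw [cancel h]; ring⟩ hts) (by simp)
    · exact Nat.eq_of_mul_eq_mul_left hr0 (cancel h)
  subst hfin
  rfl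

/-- a set without a product of two distinct elements that is a fourth power omits an element of
every pair -/
lemma card_bound {n T : ℕ} {A : Finset ℕ} (hA : A ⊆ Icc 1 n)
    (h : ∀ B : Finset ℕ, B ⊆ A → B.card = 2 → ¬ ∃ x : ℕ, 0 < x ∧ ∏ b ∈ B, b = x ^ 4) :
    A.card + (triples n T).card ≤ n := by
  classical
  let φ : (Σ _ : ℕ, Σ _ : ℕ, ℕ) → ℕ := fun x => if al x ∈ A then be x else al x
  have hmem : ∀ x ∈ triples n T, φ x ∈ Icc 1 n \ A := by
    intro x hx
    obtain ⟨ht, hr0, hrt, hr, hs, hts, hle⟩ := mem_triples hx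
    have hlt : be x < al x := by
      unfold al be
      have h1 : x.2.1 ^ 2 < x.1 ^ 2 := Nat.pow_lt_pow_left hrt (by norm_num)
      have h2 : 0 < x.2.1 * x.2.2 ^ 2 * x.1 := by have := ht.pos; positivity
      calc x.2.1 ^ 3 * x.2.2 ^ 2 * x.1 = (x.2.1 * x.2.2 ^ 2 * x.1) * x.2.1 ^ 2 := by ring
        _ < (x.2.1 * x.2.2 ^ 2 * x.1) * x.1 ^ 2 := Nat.mul_lt_mul_of_pos_left h1 h2
        _ = _ := by ring
    have hb0 : 0 < be x := by unfold be; have := ht.pos; positivity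
    have han : al x ≤ n := hle
    rw [Finset.mem_sdiff, mem_Icc]
    simp only [φ]
    split_ifs with h1
    · refine ⟨⟨hb0, by omega⟩, ?_⟩
      intro h2
      apply h {be x, al x} (by
        intro z hz
        rw [mem_insert, mem_singleton] at hz
        rcases hz with rfl | rfl <;> assumption) (card_pair hlt.ne)
      refine ⟨x.2.1 * x.2.2 * x.1, by have := ht.pos; positivity, ?_⟩
      rw [prod_pair hlt.ne]
      unfold al be
      ring
    · exact ⟨⟨by omega, han⟩, h1⟩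
  have hinj : Set.InjOn φ (triples n T : Set (Σ _ : ℕ, Σ _ : ℕ, ℕ)) := by
    intro x hx y hy hxy
    simp only [φ] at hxy
    apply disj hx hy
    split_ifs at hxy
    · exact Or.inr (Or.inr (Or.inr hxy))
    · exact Or.inr (Or.inr (Or.inl hxy))
    · exact Or.inr (Or.inl hxy)
    · exact Or.inl hxy
  have h1 : (triples n T).card ≤ (Icc 1 n \ A).card := by
    rw [← card_image_of_injOn hinj]
    apply card_le_card
    intro z hz
    rw [mem_image] at hz
    obtain ⟨x, hx, rfl⟩ := hz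
    exact hmem x hx
  have h2 := card_sdiff_add_card_eq_card hA
  rw [Nat.card_Icc] at h2
  omega

lemma F_bound (n T : ℕ) : F 2 4 n + (triples n T).card ≤ n := by
  classical
  have h0 : (triples n T).card ≤ n := by
    have := card_bound (n := n) (T := T) (A := ∅) (by simp) (by
      intro B hB hc
      rw [subset_empty.1 hB] at hc
      simp at hc)
    simpa using this
  have h1 : F 2 4 n ≤ n - (triples n T).card := by
    unfold F
    apply Finset.sup_le
    intro A hA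
    rw [mem_filter, mem_powerset] at hA
    have := card_bound (T := T) hA.1 hA.2
    omega
  omega

lemma tendsto_ratio :
    Tendsto (fun n : ℕ => ((n : ℝ) - F 2 4 n) / (n : ℝ) ^ ((2 : ℝ) / 4)) atTop atTop := by
  rw [tendsto_atTop]
  intro B
  -- the sum of the reciprocals of the primes diverges
  have hdiv : ∃ T : ℕ, 8 * B ≤ ∑ t ∈ (Icc 1 T).filter Nat.Prime, 1 / (t : ℝ) := by
    by_contra hcon
    push Not at hcon
    apply not_summable_one_div_on_primes
    apply summable_of_sum_range_le (c := 8 * B)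
    · intro n
      exact Set.indicator_nonneg (fun x _ => by positivity) n
    · intro n
      refine le_trans ?_ (hcon n).le
      have e : ∑ i ∈ range n, Set.indicator {p | Nat.Prime p} (fun n : ℕ => 1 / (n : ℝ)) i =
          ∑ i ∈ (range n).filter Nat.Prime, 1 / (i : ℝ) := by
        rw [sum_filter]
        apply sum_congr rfl
        intro i _
        rw [Set.indicator_apply]
        rfl
      rw [e]
      apply sum_le_sum_of_subset_of_nonneg
      · intro i hi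
        rw [mem_filter, mem_range] at hi
        rw [mem_filter, mem_Icc]
        exact ⟨⟨hi.2.one_le, hi.1.le⟩, hi.2⟩
      · intro i _ _
        positivity
  obtain ⟨T, hT⟩ := hdiv
  filter_upwards [eventually_ge_atTop (T ^ 4 + 1)] with n hn
  have hn0 : (0 : ℝ) < n := by
    have : 0 < n := by omega
    exact_mod_cast this
  rw [show (2 : ℝ) / 4 = 1 / 2 by norm_num, ← Real.sqrt_eq_rpow, le_div_iff₀ (Real.sqrt_pos.2 hn0)]
  have h1 := F_bound n T
  have h2 := card_triples (n := n) (T := T) (by omega)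
  have h3 : ((F 2 4 n : ℕ) : ℝ) + ((triples n T).card : ℝ) ≤ n := by exact_mod_cast h1
  have h4 : Real.sqrt n * (8 * B) ≤
      Real.sqrt n * (∑ t ∈ (Icc 1 T).filter Nat.Prime, 1 / (t : ℝ)) :=
    mul_le_mul_of_nonneg_left hT (Real.sqrt_nonneg _)
  linarith

/-- For `(k, d) = (2, 4)` the quotient of `n - F_{k,d}(n)` by `n ^ (k/d)` tends to infinity. In
particular the assertion of Q1 is false. -/
theorem result :
    Tendsto (fun n : ℕ => ((n : ℝ) - F 2 4 n) / (n : ℝ) ^ ((2 : ℝ) / 4)) atTop atTop ∧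
    ¬ (∀ k d : ℕ, 1 < k → k < d → 4 ≤ d → ∃ c C : ℝ, 0 < c ∧ c ≤ C ∧ ∀ᶠ n : ℕ in atTop,
      c * (n : ℝ) ^ ((k : ℝ) / d) ≤ (n : ℝ) - F k d n ∧
      (n : ℝ) - F k d n ≤ (n : ℝ) - f k d n ∧
      (n : ℝ) - f k d n ≤ C * (n : ℝ) ^ ((k : ℝ) / d)) := by
  refine ⟨tendsto_ratio, fun h => ?_⟩
  obtain ⟨c, C, -, -, hC⟩ := h 2 4 (by norm_num) (by norm_num) le_rfl
  obtain ⟨n, h1, h2, h3⟩ := (hC.and ((tendsto_ratio.eventually_gt_atTop C).and
    (eventually_gt_atTop 0))).exists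
  have hn : (0 : ℝ) < (n : ℝ) ^ ((2 : ℝ) / 4) := Real.rpow_pos_of_pos (by exact_mod_cast h3) _
  rw [lt_div_iff₀ hn] at h2
  have h4 := h1.2.1.trans h1.2.2
  push_cast at h4
  linarith

end Pool.Agent.Results.MP_5e019f_nt.FalseForTwoFour
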